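import Pool.Agent.H57.Lyn.Cyc

set_option autoImplicit false

namespace Pool.Agent.Results.MP_5db141_al.CyclicPresentations

/-- The set `T_n` of the problem: the words `l` (lists of signed letters) in `a` (the letter `0`)
and `x` (the letter `1`) with `a = 1` in `⟨a, x | a^n, l⟩`. -/
def T (n : ℕ) (l : List (Fin 2 × Bool)) : Prop :=
  (PresentedGroup.of 0 : PresentedGroup
    ({FreeGroup.of 0 ^ n, FreeGroup.mk l} : Set (FreeGroup (Fin 2)))) = 1

/-- The cyclically presented group `G_n(w) = ⟨x_0, …, x_(n-1) | w, θ(w), …, θ^(n-1)(w)⟩`, where `θ`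
is the automorphism of the free group with `θ(x_i) = x_(i+1)` (indices modulo `n`). -/
abbrev CycGroup (n : ℕ) [NeZero n] (w : FreeGroup (Fin n)) : Type :=
  PresentedGroup {v : FreeGroup (Fin n) | ∃ j : Fin n, v = FreeGroup.map (fun i => i + j) w}

/-- The set of the words `l` (lists of signed letters) in `x_0, …, x_(n-1)` whose cyclically
presented group `G_n(l)` is trivial. -/
def CycTrivial (n : ℕ) [NeZero n] (l : List (Fin n × Bool)) : Prop :=
  ∀ g : CycGroup n (FreeGroup.mk l), g = 1

theorem result (n : ℕ) [NeZero n] (hn : 2 ≤ n) : ManyOneReducible (CycTrivial n) (T n) :=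
  H57.Lyn.Cyc_red_T n hn

end Pool.Agent.Results.MP_5db141_al.CyclicPresentations
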