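import Pool.Agent.H57.Lyn.Pr

set_option autoImplicit false

namespace Pool.Agent.Results.MP_5db141_al.PrimeTorsion

/-- The set `T_n` of the problem: the words `l` (lists of signed letters) in `a` (the letter `0`)
and `x` (the letter `1`) with `a = 1` in `⟨a, x | a^n, l⟩`. -/
def T (n : ℕ) (l : List (Fin 2 × Bool)) : Prop :=
  (PresentedGroup.of 0 : PresentedGroup
    ({FreeGroup.of 0 ^ n, FreeGroup.mk l} : Set (FreeGroup (Fin 2)))) = 1

/-- The relators of the group `⟨a_0, …, a_r, x_1, …, x_k | a_0^n, …, a_r^n, w⟩`, the quotient of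
the free product of `r + 1` cyclic groups of order `n` and a free group of rank `k` by `w`. -/
def relators (n r k : ℕ) (w : FreeGroup (Fin (r + 1) ⊕ Fin k)) :
    Set (FreeGroup (Fin (r + 1) ⊕ Fin k)) :=
  {v | (∃ i : Fin (r + 1), v = FreeGroup.of (Sum.inl i) ^ n) ∨ v = w}

/-- The set of the words `l` in `a_0, …, a_r, x_1, …, x_k` with `a_0 = 1` in
`⟨a_0, …, a_r, x_1, …, x_k | a_0^n, …, a_r^n, l⟩`. -/
def TTorsion (n r k : ℕ) (l : List ((Fin (r + 1) ⊕ Fin k) × Bool)) : Prop :=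
  (PresentedGroup.of (Sum.inl 0) : PresentedGroup (relators n r k (FreeGroup.mk l))) = 1

theorem result (p : ℕ) (hp : p.Prime) (r k : ℕ) (h : 1 ≤ k ∨ 2 ≤ r) :
    ManyOneEquiv (TTorsion p r k) (T p) :=
  H57.Lyn.TR_equiv p r k hp h

end Pool.Agent.Results.MP_5db141_al.PrimeTorsion
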