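import Pool.Agent.H57.Lyn.Res

set_option autoImplicit false

namespace Pool.Agent.Results.MP_5db141_al.TorsionQuotients

/-- The group `G_{n,w} = ⟨a, x | a^n, w⟩`: the letter `0` is `a`, the letter `1` is `x`. -/
abbrev Grp (n : ℕ) (w : FreeGroup (Fin 2)) : Type :=
  PresentedGroup ({FreeGroup.of 0 ^ n, w} : Set (FreeGroup (Fin 2)))

/-- The homomorphism from the free group on `a_0, a_1, a_2` to the free group on `a, x` with
`a_i ↦ x^i a x^(-i)`. -/
def width : FreeGroup (Fin 3) →* FreeGroup (Fin 2) :=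
  FreeGroup.lift (fun i : Fin 3 =>
    FreeGroup.of 1 ^ (i : ℕ) * FreeGroup.of 0 * (FreeGroup.of 1 ^ (i : ℕ))⁻¹)

theorem result (n : ℕ) (hn : 2 ≤ n) : ∃ v : FreeGroup (Fin 3),
    orderOf (PresentedGroup.of 0 : Grp n (width v)) = n ∧
    ∀ (F : Type) [Group F], (∀ g : F, IsOfFinOrder g) →
      ∀ f : Grp n (width v) →* F, f (PresentedGroup.of 0) = 1 :=
  H57.Lyn.torsion_kills n hn

end Pool.Agent.Results.MP_5db141_al.TorsionQuotients
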