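import Pool.Agent.H57.Lyn.Uni

set_option autoImplicit false

namespace Pool.Agent.Results.MP_5db141_al.WidthThree

/-- The group `⟨a, x_1, …, x_k | a^n, w⟩`: the letter `0` is `a`, the letter `i ≥ 1` is `x_i`. For
`k = 1` this is the group `G_{n,w}` of the problem. -/
abbrev Grp (n k : ℕ) (w : FreeGroup (Fin (k + 1))) : Type :=
  PresentedGroup ({FreeGroup.of 0 ^ n, w} : Set (FreeGroup (Fin (k + 1))))

/-- The order of `a` in `⟨a, x_1, …, x_k | a^n, w⟩` (with value `0` when it is infinite). -/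
noncomputable def ordA (n k : ℕ) (w : FreeGroup (Fin (k + 1))) : ℕ :=
  orderOf (PresentedGroup.of 0 : Grp n k w)

/-- The homomorphism from the free group on `a_0, a_1, a_2` to the free group on `a, x` with
`a_i ↦ x^i a x^(-i)`. -/
def width : FreeGroup (Fin 3) →* FreeGroup (Fin (1 + 1)) :=
  FreeGroup.lift (fun i : Fin 3 =>
    FreeGroup.of 1 ^ (i : ℕ) * FreeGroup.of 0 * (FreeGroup.of 1 ^ (i : ℕ))⁻¹)

/-- The set `T_n^(k)` of the words `l` (lists of signed letters) in `a, x_1, …, x_k` with `a = 1` in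
`⟨a, x_1, …, x_k | a^n, l⟩`; `T_n^(1)` is the set `T_n` of the problem. -/
def T (n k : ℕ) (l : List (Fin (k + 1) × Bool)) : Prop :=
  (PresentedGroup.of 0 : Grp n k (FreeGroup.mk l)) = 1

/-- The set of the words `l` in three letters `a_0, a_1, a_2` such that `a = 1` in
`⟨a, x | a^n, l(a, x a x^(-1), x^2 a x^(-2))⟩`. -/
def TWidth (n : ℕ) (l : List (Fin 3 × Bool)) : Prop :=
  (PresentedGroup.of 0 : Grp n 1 (width (FreeGroup.mk l))) = 1

theorem result (k : ℕ) (hk : 1 ≤ k) :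
    (∃ φ : FreeGroup (Fin (k + 1)) →* FreeGroup (Fin 3), φ (FreeGroup.of 0) = FreeGroup.of 0 ∧
      ∀ (n : ℕ) (w : FreeGroup (Fin (k + 1))), ordA n 1 (width (φ w)) = ordA n k w) ∧
    ∀ n : ℕ, ManyOneEquiv (T n k) (TWidth n) :=
  ⟨⟨H57.Lyn.phi k, H57.Lyn.phi_of_zero k, fun n w => H57.Lyn.order_phi k hk n w⟩,
    fun n => H57.Lyn.TK_equiv_T3 n k hk⟩

end Pool.Agent.Results.MP_5db141_al.WidthThree
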